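import Pool.Agent.R599.MC.Game

/-!
# Diagonal trees and path formulas
-/

namespace Pool.Agent.R599.MC

/-! ### Diagonal labellings -/

/-- The position of the evaluation game read off a node of the binary tree. -/
def ps (A : Aut) : Wd → A.Q × Wd
  | [] => (A.q0, [])
  | [_] => (A.q0, [])
  | d :: e :: u => (A.sh (ps A (e :: u)).1).child (ps A (e :: u)).1 (ps A (e :: u)).2 d

theorem child_length {Q : Type} (s : Sh Q) (q : Q) (w : Wd) (d : Bool) :
    (s.child q w d).2.length ≤ w.length + 1 := by
  cases s <;> simp [Sh.child]

theorem ps_length (A : Aut) : ∀ u : Wd, u ≠ [] → (ps A u).2.length < u.length := by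
  intro u
  induction u with
  | nil => intro h; exact absurd rfl h
  | cons d u ih =>
    intro _
    cases u with
    | nil => simp [ps]
    | cons e u =>
      have h1 := ih (by simp)
      have h2 := child_length (A.sh (ps A (e :: u)).1) (ps A (e :: u)).1 (ps A (e :: u)).2 d
      simp only [ps, List.length_cons] at h1 h2 ⊢
      omega

/-- The truth value of a terminal state from the letters `t` true at its node. -/
def tv {Q : Type} (t : ℕ → Prop) : Sh Q → Prop
  | .lit p s => (t p ↔ s = true)
  | .cst c => c = true
  | .fv _ => False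
  | .bin _ _ _ => True
  | .mod _ _ => True

/-- The letters at a node: letter `0` for positions of Eve, letters `1`, `2` for the
priorities `2`, `3`. -/
def labF {Q : Type} (s : Sh Q) (k : ℕ) (t : ℕ → Prop) : ℕ → Prop := fun p =>
  match s.owner with
  | none => (p = 1 ∧ tv t s) ∨ (p = 2 ∧ ¬ tv t s)
  | some o => (p = 0 ∧ o = true) ∨ (p = 1 ∧ k = 2) ∨ (p = 2 ∧ k = 3)

open Classical in
/-- The diagonal labelling. -/
noncomputable def lab (A : Aut) (u : Wd) : ℕ → Prop :=
  if h : u = [] then fun _ => False
  else labF (A.sh (ps A u).1) (A.pr (ps A u).1) (lab A (ps A u).2)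
termination_by u.length
decreasing_by exact ps_length A u h

theorem lab_eq (A : Aut) {u : Wd} (h : u ≠ []) :
    lab A u = labF (A.sh (ps A u).1) (A.pr (ps A u).1) (lab A (ps A u).2) := by
  rw [lab]
  simp [h]

/-- The diagonal valuation. -/
def dV (A : Aut) : ℕ → Set Wd := fun p => {u | lab A u p}

open Classical in
/-- The priority encoded by the letters `1` and `2`. -/
noncomputable def lev (V : ℕ → Set Wd) (u : Wd) : ℕ :=
  if u ∈ V 2 then 3 else if u ∈ V 1 then 2 else 1

theorem tval_tv {A : Aut} (s : Sh A.Q) (w : Wd) :
    s.tval (dV A) (fun _ => ∅) w ↔ tv (lab A w) s := by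
  cases s <;> simp [Sh.tval, tv, dV]

theorem lev_term {A : Aut} {u : Wd} (h : u ≠ []) (ho : (A.sh (ps A u).1).owner = none) :
    (tv (lab A (ps A u).2) (A.sh (ps A u).1) → lev (dV A) u = 2) ∧
    (¬ tv (lab A (ps A u).2) (A.sh (ps A u).1) → lev (dV A) u = 3) := by
  have e : ∀ p, u ∈ dV A p ↔ (p = 1 ∧ tv (lab A (ps A u).2) (A.sh (ps A u).1)) ∨
      (p = 2 ∧ ¬ tv (lab A (ps A u).2) (A.sh (ps A u).1)) := by
    intro p
    show lab A u p ↔ _
    rw [lab_eq A h]
    simp only [labF, ho]
  constructor
  · intro ht
    have h2 : u ∉ dV A 2 := by rw [e]; simp [ht]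
    have h1 : u ∈ dV A 1 := by rw [e]; simp [ht]
    simp [lev, h2, h1]
  · intro ht
    have h2 : u ∈ dV A 2 := by rw [e]; simp [ht]
    simp [lev, h2]

theorem mem_of_owner {A : Aut} {u : Wd} (h : u ≠ []) {o : Bool}
    (ho : (A.sh (ps A u).1).owner = some o) (p : ℕ) :
    u ∈ dV A p ↔ (p = 0 ∧ o = true) ∨ (p = 1 ∧ A.pr (ps A u).1 = 2) ∨
      (p = 2 ∧ A.pr (ps A u).1 = 3) := by
  show lab A u p ↔ _
  rw [lab_eq A h]
  simp only [labF, ho]

theorem lev_owner {A : Aut} (hpr : ∀ q, 1 ≤ A.pr q ∧ A.pr q ≤ 3) {u : Wd} (h : u ≠ [])
    {o : Bool} (ho : (A.sh (ps A u).1).owner = some o) :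
    lev (dV A) u = A.pr (ps A u).1 := by
  have h1 := mem_of_owner h ho 1
  have h2 := mem_of_owner h ho 2
  simp only [one_ne_zero, false_and, true_and, false_or, OfNat.one_ne_ofNat,
    OfNat.ofNat_ne_zero, OfNat.ofNat_ne_one, or_false] at h1 h2
  have h3 := hpr (ps A u).1
  unfold lev
  by_cases h4 : A.pr (ps A u).1 = 3
  · rw [if_pos (h2.2 h4), h4]
  · rw [if_neg (fun h => h4 (h2.1 h))]
    by_cases h5 : A.pr (ps A u).1 = 2
    · rw [if_pos (h1.2 h5), h5]
    · rw [if_neg (fun h => h5 (h1.1 h))]
      omega

theorem not_mem_of_term {A : Aut} {u : Wd} (h : u ≠ [])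
    (ho : (A.sh (ps A u).1).owner = none) : u ∉ dV A 0 := by
  intro h0
  have h1 : lab A u 0 := h0
  rw [lab_eq A h] at h1
  simp only [labF, ho] at h1
  omega

theorem not_mem_nil {A : Aut} (p : ℕ) : [] ∉ dV A p := by
  intro h0
  have h1 : lab A [] p := h0
  rw [lab] at h1
  simp at h1

/-- A marking of the binary tree by a winning strategy of player `P`. -/
structure Marking (V : ℕ → Set Wd) (P : Bool) (S : Set Wd) : Prop where
  nil : [] ∈ S
  ex : ∀ u ∈ S, (u ∈ V 0 ↔ P = true) → ∃ d : Bool, d :: u ∈ S
  all : ∀ u ∈ S, ¬ (u ∈ V 0 ↔ P = true) → ∀ d : Bool, d :: u ∈ S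
  good : ∀ π : ℕ → Wd, π 0 = [] → (∀ n, TR (π n) (π (n + 1))) → (∀ n, π n ∈ S) →
    Good P (fun n => lev V (π n))

/-- The state of a certificate reached at a node. -/
def run {Z : Type} (z0 : Z) (nx : Z → Bool → Option Z) : Wd → Option Z
  | [] => none
  | [_] => some z0
  | d :: e :: u => (run z0 nx (e :: u)).bind (fun z => nx z d)

theorem exists_marking {A : Aut} (hpr : ∀ q, 1 ≤ A.pr q ∧ A.pr q ≤ 3) {P : Bool}
    (h : Wins A (dV A) (fun _ => ∅) P []) : ∃ S, Marking (dV A) P S := by
  classical
  obtain ⟨C, z0, hz0⟩ := h
  have hnx : ∀ z, ∃ nx : Bool → Option C.Z,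
      ((A.sh (C.pos z).1).owner = none → ∀ d, nx d = some z) ∧
      ((A.sh (C.pos z).1).owner = some P → ∃ d z', nx d = some z') ∧
      ((A.sh (C.pos z).1).owner = some (!P) → ∀ d, ∃ z', nx d = some z') ∧
      ((A.sh (C.pos z).1).owner ≠ none → ∀ d z', nx d = some z' → C.N z z' ∧
        C.pos z' = (A.sh (C.pos z).1).child (C.pos z).1 (C.pos z).2 d) := by
    intro z
    cases ho : (A.sh (C.pos z).1).owner with
    | none => exact ⟨fun _ => some z, by simp, by simp, by simp, by simp⟩
    | some o =>
      by_cases hoP : o = P
      · obtain ⟨d, z', h1, h2⟩ := (C.ok z).own (by rw [ho, hoP])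
        refine ⟨fun d' => if d' = d then some z' else none, by simp, ?_, ?_, ?_⟩
        · intro _
          exact ⟨d, z', by simp⟩
        · intro hc
          exfalso
          rw [hoP] at hc
          simp only [Option.some.injEq] at hc
          cases P <;> simp at hc
        · intro _ d' z'' hd
          by_cases hdd : d' = d
          · subst hdd
            simp only [if_true, Option.some.injEq] at hd
            subst hd
            exact ⟨h1, h2⟩
          · simp [hdd] at hd
      · have hoP' : o = !P := by cases o <;> cases P <;> simp at hoP ⊢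
        have h1 := (C.ok z).opp (by rw [ho, hoP'])
        choose g hg using h1
        refine ⟨fun d => some (g d), by simp, ?_, ?_, ?_⟩
        · intro hc
          simp only [Option.some.injEq] at hc
          exact absurd hc hoP
        · intro _ d
          exact ⟨g d, rfl⟩
        · intro _ d z' hd
          simp only [Option.some.injEq] at hd
          subst hd
          exact hg d
  choose nx hterm hown hopp hmv using hnx
  have hpos : ∀ u z, run z0 nx u = some z → C.pos z = ps A u := by
    intro u
    induction u with
    | nil => intro z hz; simp [run] at hz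
    | cons d u ih =>
      intro z hz
      cases u with
      | nil =>
        simp only [run, Option.some.injEq] at hz
        subst hz
        exact hz0
      | cons e u =>
        simp only [run, Option.bind_eq_some_iff] at hz
        obtain ⟨z1, h1, h2⟩ := hz
        have h3 := ih z1 h1
        cases ho : (A.sh (C.pos z1).1).owner with
        | none =>
          rw [hterm z1 ho d] at h2
          simp only [Option.some.injEq] at h2
          subst h2
          simp only [ps]
          rw [← h3]
          cases hs : A.sh (C.pos z1).1 with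
          | bin o a b => rw [hs] at ho; simp [Sh.owner] at ho
          | mod o a => rw [hs] at ho; simp [Sh.owner] at ho
          | lit p s => rfl
          | cst c => rfl
          | fv x => rfl
        | some o =>
          have h4 := (hmv z1 (by rw [ho]; simp) d z h2).2
          rw [h4]
          simp only [ps]
          rw [h3]
  refine ⟨{u | u = [] ∨ ∃ z, run z0 nx u = some z}, ?_, ?_, ?_, ?_⟩
  · exact Or.inl rfl
  · rintro u hu h0
    by_cases hnil : u = []
    · subst hnil
      exact ⟨true, Or.inr ⟨z0, rfl⟩⟩
    · rcases hu with hu | ⟨z, hz⟩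
      · exact absurd hu hnil
      · have hp := hpos u z hz
        obtain ⟨e, u', rfl⟩ : ∃ e u', u = e :: u' := by
          cases u with
          | nil => exact absurd rfl hnil
          | cons e u' => exact ⟨e, u', rfl⟩
        cases ho : (A.sh (C.pos z).1).owner with
        | none =>
          exact ⟨true, Or.inr ⟨z, by simp only [run, hz, Option.bind_some]; exact hterm z ho _⟩⟩
        | some o =>
          have ho' := ho
          rw [hp] at ho'
          have h1 := mem_of_owner hnil ho' 0
          simp only [true_and, zero_ne_one, false_and, false_or, OfNat.zero_ne_ofNat,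
            or_false] at h1
          rw [h1] at h0
          have h2 : o = P := by cases o <;> cases P <;> simp at h0 ⊢
          subst h2
          obtain ⟨d, z', hd⟩ := hown z ho
          exact ⟨d, Or.inr ⟨z', by simp only [run, hz, Option.bind_some]; exact hd⟩⟩
  · rintro u hu h0 d
    by_cases hnil : u = []
    · subst hnil
      exact Or.inr ⟨z0, rfl⟩
    · rcases hu with hu | ⟨z, hz⟩
      · exact absurd hu hnil
      · have hp := hpos u z hz
        obtain ⟨e, u', rfl⟩ : ∃ e u', u = e :: u' := by
          cases u with
          | nil => exact absurd rfl hnil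
          | cons e u' => exact ⟨e, u', rfl⟩
        cases ho : (A.sh (C.pos z).1).owner with
        | none =>
          exact Or.inr ⟨z, by simp only [run, hz, Option.bind_some]; exact hterm z ho _⟩
        | some o =>
          have ho' := ho
          rw [hp] at ho'
          have h1 := mem_of_owner hnil ho' 0
          simp only [true_and, zero_ne_one, false_and, false_or, OfNat.zero_ne_ofNat,
            or_false] at h1
          rw [h1] at h0
          have h2 : o = !P := by cases o <;> cases P <;> simp at h0 ⊢
          subst h2
          obtain ⟨z', hd⟩ := hopp z ho d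
          exact Or.inr ⟨z', by simp only [run, hz, Option.bind_some]; exact hd⟩
  · intro π h0 hR hS
    have hne : ∀ n, π (n + 1) ≠ [] := by
      intro n hn
      obtain ⟨d, hd⟩ := hR n
      rw [hn] at hd
      simp at hd
    have hz : ∀ n, ∃ z, run z0 nx (π (n + 1)) = some z := by
      intro n
      rcases hS (n + 1) with h1 | h1
      · exact absurd h1 (hne n)
      · exact h1
    choose zz hzz using hz
    have hstep : ∀ n, ∃ d, nx (zz n) d = some (zz (n + 1)) := by
      intro n
      obtain ⟨d, hd⟩ := hR (n + 1)
      refine ⟨d, ?_⟩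
      have h1 := hzz (n + 1)
      rw [hd] at h1
      obtain ⟨e, u', hu⟩ : ∃ e u', π (n + 1) = e :: u' := by
        cases hπ : π (n + 1) with
        | nil => exact absurd hπ (hne n)
        | cons e u' => exact ⟨e, u', rfl⟩
      have h2 := hzz n
      rw [hu] at h1 h2
      simp only [run, h2, Option.bind_some] at h1
      exact h1
    by_cases hterm' : ∃ m, (A.sh (C.pos (zz m)).1).owner = none
    · obtain ⟨m, hm⟩ := hterm'
      have hconst : ∀ k, zz (k + m) = zz m := by
        intro k
        induction k with
        | zero => simp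
        | succ k ih =>
          obtain ⟨d, hd⟩ := hstep (k + m)
          rw [ih, hterm (zz m) hm d] at hd
          simp only [Option.some.injEq] at hd
          rw [show k + 1 + m = k + m + 1 by omega]
          exact hd.symm
      refine good_shift (m + 1) ?_
      have hlev : ∀ k, lev (dV A) (π (k + (m + 1))) = if P = true then 2 else 3 := by
        intro k
        have hp := hpos _ _ (hzz (k + m))
        rw [hconst k] at hp
        have ho := hm
        rw [hp] at ho
        have h1 := lev_term (hne (k + m)) ho
        have h2 := (C.ok (zz m)).term hm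
        rw [tval_tv, hp] at h2
        rw [show k + (m + 1) = k + m + 1 by omega]
        cases P
        · simp only [Bool.false_eq_true, iff_false] at h2
          simpa using h1.2 h2
        · simp only [iff_true] at h2
          simpa using h1.1 h2
      simp only [hlev]
      refine ⟨if P = true then 2 else 3, ?_, ⟨0, fun n _ => le_refl _⟩, fun n0 => ⟨n0, le_refl _, rfl⟩⟩
      cases P <;> simp
    · push Not at hterm'
      refine good_shift 1 ?_
      have h1 := C.par zz (fun n => by
        obtain ⟨d, hd⟩ := hstep n
        exact (hmv (zz n) (hterm' n) d _ hd).1)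
      have e : (fun n => lev (dV A) (π (n + 1))) = fun n => A.pr (C.pos (zz n)).1 := by
        funext n
        have hp := hpos _ _ (hzz n)
        have ho := hterm' n
        rw [hp] at ho ⊢
        cases ho' : (A.sh (ps A (π (n + 1))).1).owner with
        | none => exact absurd ho' ho
        | some o => exact lev_owner hpr (hne n) ho'
      rw [e]
      exact h1

end Pool.Agent.R599.MC
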