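import Pool.Agent.R599.MC.Syntax

/-!
# Evaluation games on the full binary tree
-/

namespace Pool.Agent.R599.MC

/-- Nodes of the binary tree; the children of `w` are `d :: w`. -/
abbrev Wd := List Bool

/-- The successor relation of the binary tree. -/
def TR : Wd → Wd → Prop := fun w v => ∃ d : Bool, v = d :: w

/-- Shapes of states. -/
inductive Sh (Q : Type)
  | lit (p : ℕ) (s : Bool)
  | cst (c : Bool)
  | fv (x : ℕ)
  | bin (o : Bool) (a b : Q)
  | mod (o : Bool) (a : Q)

/-- The player owning a state (`true` is Eve); `none` for terminal states. -/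
def Sh.owner {Q : Type} : Sh Q → Option Bool
  | .lit _ _ => none
  | .cst _ => none
  | .fv _ => none
  | .bin o _ _ => some o
  | .mod o _ => some o

/-- The children of a position. -/
def Sh.child {Q : Type} : Sh Q → Q → Wd → Bool → Q × Wd
  | .lit _ _, q, w, _ => (q, w)
  | .cst _, q, w, _ => (q, w)
  | .fv _, q, w, _ => (q, w)
  | .bin _ a b, _, w, d => (if d then b else a, w)
  | .mod _ a, _, w, d => (a, d :: w)

/-- The truth value of a terminal state. -/
def Sh.tval {Q : Type} (V ρ : ℕ → Set Wd) : Sh Q → Wd → Prop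
  | .lit p s, w => (w ∈ V p ↔ s = true)
  | .cst c, _ => c = true
  | .fv x, w => w ∈ ρ x
  | .bin _ _ _, _ => True
  | .mod _ _, _ => True

/-- Alternating automata. -/
structure Aut where
  Q : Type
  q0 : Q
  sh : Q → Sh Q
  pr : Q → ℕ

/-- The parity condition of player `P`. -/
def Good (P : Bool) (g : ℕ → ℕ) : Prop :=
  ∃ k, (k % 2 = 0 ↔ P = true) ∧ (∃ n0, ∀ n ≥ n0, g n ≤ k) ∧ (∀ n0, ∃ n ≥ n0, g n = k)

theorem good_shift {P : Bool} {g : ℕ → ℕ} (m : ℕ) (h : Good P (fun n => g (n + m))) :
    Good P g := by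
  obtain ⟨k, h1, ⟨n0, h2⟩, h3⟩ := h
  refine ⟨k, h1, ⟨n0 + m, ?_⟩, ?_⟩
  · intro n hn
    have := h2 (n - m) (by omega)
    simp only at this
    rwa [Nat.sub_add_cancel (by omega)] at this
  · intro n1
    obtain ⟨n, hn, h4⟩ := h3 n1
    exact ⟨n + m, by omega, h4⟩

/-- The local condition on a state of a certificate. -/
structure LocOK (A : Aut) (V ρ : ℕ → Set Wd) (P : Bool) {Z : Type} (pos : Z → A.Q × Wd)
    (N : Z → Z → Prop) (z : Z) : Prop where
  term : (A.sh (pos z).1).owner = none →
    ((A.sh (pos z).1).tval V ρ (pos z).2 ↔ P = true)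
  own : (A.sh (pos z).1).owner = some P → ∃ d z', N z z' ∧
    pos z' = (A.sh (pos z).1).child (pos z).1 (pos z).2 d
  opp : (A.sh (pos z).1).owner = some (!P) → ∀ d, ∃ z', N z z' ∧
    pos z' = (A.sh (pos z).1).child (pos z).1 (pos z).2 d

/-- A certificate that player `P` wins. -/
structure Cert (A : Aut) (V ρ : ℕ → Set Wd) (P : Bool) where
  Z : Type
  pos : Z → A.Q × Wd
  N : Z → Z → Prop
  ok : ∀ z, LocOK A V ρ P pos N z
  par : ∀ f : ℕ → Z, (∀ n, N (f n) (f (n + 1))) → Good P (fun n => A.pr (pos (f n)).1)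

/-- Player `P` wins the game of `A` from the initial state at `w`. -/
def Wins (A : Aut) (V ρ : ℕ → Set Wd) (P : Bool) (w : Wd) : Prop :=
  ∃ (C : Cert A V ρ P) (z : C.Z), C.pos z = (A.q0, w)

/-! ### Gluing -/

section Glue

variable (A : Aut) (V ρ : ℕ → Set Wd) (P : Bool) (I : Type) (Z : I → Type)
  (pos : ∀ i, Z i → A.Q × Wd) (N : ∀ i, Z i → Z i → Prop) (s : ∀ i, Z i)
  (J : ∀ i, Z i → Option I)

/-- Moves of the glued certificate. -/
def gN : (Σ i, Z i) → (Σ i, Z i) → Prop := fun a b =>
  (J a.1 a.2 = none ∧ ∃ z', b = ⟨a.1, z'⟩ ∧ N a.1 a.2 z') ∨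
    (∃ j, J a.1 a.2 = some j ∧ b = ⟨j, s j⟩)

theorem glue
    (hloc : ∀ i z, J i z = none → LocOK A V ρ P (pos i) (N i) z)
    (hjump : ∀ i z j, J i z = some j → (A.sh (pos i z).1).owner ≠ none ∧
      ∀ d, pos j (s j) = (A.sh (pos i z).1).child (pos i z).1 (pos i z).2 d)
    (hpar : ∀ i (f : ℕ → Z i), (∀ n, N i (f n) (f (n + 1))) →
      Good P (fun n => A.pr (pos i (f n)).1))
    (hinf : ∀ f : ℕ → Σ i, Z i, (∀ n, gN I Z N s J (f n) (f (n + 1))) →
      (∀ m, ∃ n ≥ m, (J (f n).1 (f n).2) ≠ none) →
      Good P (fun n => A.pr (pos (f n).1 (f n).2).1)) (i : I) :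
    ∃ (C : Cert A V ρ P) (z : C.Z), C.pos z = pos i (s i) := by
  refine ⟨⟨Σ i, Z i, fun a => pos a.1 a.2, gN I Z N s J, ?_, ?_⟩, ⟨i, s i⟩, rfl⟩
  · rintro ⟨i, z⟩
    cases hJ : J i z with
    | none =>
      have h := hloc i z hJ
      refine ⟨h.term, ?_, ?_⟩
      · intro ho
        obtain ⟨d, z', h1, h2⟩ := h.own ho
        exact ⟨d, ⟨i, z'⟩, Or.inl ⟨hJ, z', rfl, h1⟩, h2⟩
      · intro ho d
        obtain ⟨z', h1, h2⟩ := h.opp ho d
        exact ⟨⟨i, z'⟩, Or.inl ⟨hJ, z', rfl, h1⟩, h2⟩
    | some j =>
      obtain ⟨h1, h2⟩ := hjump i z j hJ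
      refine ⟨fun h => absurd h h1, ?_, ?_⟩
      · intro _
        exact ⟨true, ⟨j, s j⟩, Or.inr ⟨j, hJ, rfl⟩, h2 true⟩
      · intro _ d
        exact ⟨⟨j, s j⟩, Or.inr ⟨j, hJ, rfl⟩, h2 d⟩
  · intro f hf
    by_cases hinf' : ∀ m, ∃ n ≥ m, (J (f n).1 (f n).2) ≠ none
    · exact hinf f hf hinf'
    · push Not at hinf'
      obtain ⟨m, hm⟩ := hinf'
      have key : ∀ k, ∃ z, f (k + m) = ⟨(f m).1, z⟩ := by
        intro k
        induction k with
        | zero => exact ⟨(f m).2, by simp⟩
        | succ k ih =>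
          obtain ⟨z, hz⟩ := ih
          have h1 := hf (k + m)
          have h2 := hm (k + m) (by omega)
          rw [hz] at h1 h2
          rcases h1 with ⟨_, z', h3, _⟩ | ⟨j, h3, _⟩
          · refine ⟨z', ?_⟩
            rw [show k + 1 + m = k + m + 1 by omega]
            exact h3
          · rw [h3] at h2
            simp at h2
      choose h hh using key
      refine good_shift m ?_
      have e : (fun n => A.pr (pos (f (n + m)).1 (f (n + m)).2).1) =
          fun n => A.pr (pos (f m).1 (h n)).1 := by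
        funext n
        rw [hh n]
      have h4 := hpar (f m).1 h ?_
      · show Good P (fun n => A.pr (pos (f (n + m)).1 (f (n + m)).2).1)
        rw [e]
        exact h4
      · intro k
        have h1 := hf (k + m)
        rw [show k + m + 1 = k + 1 + m by omega, hh k, hh (k + 1)] at h1
        have h2 := hm (k + m) (by omega)
        rw [hh k] at h2
        rcases h1 with ⟨_, z', h3, h4⟩ | ⟨j, h3, _⟩
        · simp only [Sigma.mk.injEq, heq_eq_eq, true_and] at h3
          rw [h3]
          exact h4
        · rw [h3] at h2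
          simp at h2

end Glue

/-! ### Plugging automata into variables -/

/-- Renaming the states in a shape. -/
def Sh.map {Q Q' : Type} (f : Q → Q') : Sh Q → Sh Q'
  | .lit p s => .lit p s
  | .cst c => .cst c
  | .fv x => .fv x
  | .bin o a b => .bin o (f a) (f b)
  | .mod o a => .mod o (f a)

theorem owner_map {Q Q' : Type} (f : Q → Q') (s : Sh Q) : (s.map f).owner = s.owner := by
  cases s <;> rfl

theorem child_map {Q Q' : Type} (f : Q → Q') (s : Sh Q) (q : Q) (w : Wd) (d : Bool) :
    (s.map f).child (f q) w d = (f (s.child q w d).1, (s.child q w d).2) := by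
  cases s <;> simp [Sh.map, Sh.child]
  cases d <;> rfl

theorem tval_map {Q Q' : Type} (f : Q → Q') (V ρ : ℕ → Set Wd) (s : Sh Q) (w : Wd) :
    (s.map f).tval V ρ w ↔ s.tval V ρ w := by
  cases s <;> simp [Sh.map, Sh.tval]

/-- The shape of a state of `A` after plugging. -/
def plugSh {Q Q' : Type} (f : Q → Q') (t : ℕ → Option Q') : Sh Q → Sh Q'
  | .fv x => match t x with
    | some q => .bin true q q
    | none => .fv x
  | .lit p s => .lit p s
  | .cst c => .cst c
  | .bin o a b => .bin o (f a) (f b)
  | .mod o a => .mod o (f a)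

/-- Plugging the automata `B i` into the variables of `A`. -/
def plug (A : Aut) (I : Type) (B : I → Aut) (g : ℕ → Option I) : Aut where
  Q := A.Q ⊕ (Σ i, (B i).Q)
  q0 := Sum.inl A.q0
  sh := fun q => match q with
    | Sum.inl q => plugSh Sum.inl (fun x => (g x).map (fun i => Sum.inr ⟨i, (B i).q0⟩))
        (A.sh q)
    | Sum.inr p => ((B p.1).sh p.2).map (fun q => Sum.inr ⟨p.1, q⟩)
  pr := fun q => match q with
    | Sum.inl q => A.pr q
    | Sum.inr p => (B p.1).pr p.2

/-- States of `A` in the plugged automaton. -/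
def inlP (A : Aut) (I : Type) (B : I → Aut) (g : ℕ → Option I) (q : A.Q) :
    (plug A I B g).Q := Sum.inl q

/-- States of `B i` in the plugged automaton. -/
def inrP (A : Aut) (I : Type) (B : I → Aut) (g : ℕ → Option I) (i : I) (q : (B i).Q) :
    (plug A I B g).Q := Sum.inr ⟨i, q⟩

theorem plug_inl (A : Aut) (I : Type) (B : I → Aut) (g : ℕ → Option I) (q : A.Q) :
    (plug A I B g).sh (inlP A I B g q) = plugSh (inlP A I B g)
      (fun x => (g x).map (fun i => inrP A I B g i (B i).q0)) (A.sh q) := rfl

theorem plug_inr (A : Aut) (I : Type) (B : I → Aut) (g : ℕ → Option I) (i : I)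
    (q : (B i).Q) :
    (plug A I B g).sh (inrP A I B g i q) = ((B i).sh q).map (inrP A I B g i) := rfl

theorem plug_wins {A : Aut} {I : Type} {B : I → Aut} {g : ℕ → Option I}
    {V ρ ρ' : ℕ → Set Wd} {P : Bool} {w : Wd} (hA : Wins A V ρ' P w)
    (hρ : ∀ x, g x = none → ρ' x = ρ x)
    (hB : ∀ x i, g x = some i → ∀ v, (v ∈ ρ' x ↔ P = true) → Wins (B i) V ρ P v) :
    Wins (plug A I B g) V ρ P w := by
  classical
  obtain ⟨C, z0, hz0⟩ := hA
  let Pt : Type := {p : I × Wd // Wins (B p.1) V ρ P p.2}
  let ct : ∀ p : Pt, Cert (B p.1.1) V ρ P := fun p => p.2.choose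
  have hct : ∀ p : Pt, ∃ z, (ct p).pos z = ((B p.1.1).q0, p.1.2) := fun p => p.2.choose_spec
  choose st hst using hct
  let Z : Option Pt → Type := fun o => match o with
    | none => C.Z
    | some p => (ct p).Z
  let pos : ∀ o, Z o → (plug A I B g).Q × Wd := fun o => match o with
    | none => fun z => (inlP A I B g (C.pos z).1, (C.pos z).2)
    | some p => fun z => (inrP A I B g p.1.1 ((ct p).pos z).1, ((ct p).pos z).2)
  let E : C.Z → Pt → Prop := fun z p => ∃ x, A.sh (C.pos z).1 = .fv x ∧
    g x = some p.1.1 ∧ p.1.2 = (C.pos z).2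
  let N : ∀ o, Z o → Z o → Prop := fun o => match o with
    | none => fun z z' => C.N z z'
    | some p => fun z z' => (ct p).N z z'
  let s : ∀ o, Z o := fun o => match o with
    | none => z0
    | some p => st p
  let J : ∀ o, Z o → Option (Option Pt) := fun o => match o with
    | none => fun z => if h : ∃ p, E z p then some (some h.choose) else none
    | some _ => fun _ => none
  have hglue := glue (plug A I B g) V ρ P (Option Pt) Z pos N s J ?_ ?_ ?_ ?_ none
  · obtain ⟨D, z, hz⟩ := hglue
    refine ⟨D, z, ?_⟩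
    rw [hz]
    show (inlP A I B g (C.pos z0).1, (C.pos z0).2) = _
    rw [hz0]
    rfl
  · rintro (_ | p) z hJ
    · have hE : ¬ ∃ p, E z p := by
        intro h
        simp only [J] at hJ
        rw [dif_pos h] at hJ
        simp at hJ
      have h := C.ok z
      have hsh : (plug A I B g).sh (pos none z).1 =
          plugSh (inlP A I B g) (fun x => (g x).map (fun i => inrP A I B g i (B i).q0))
            (A.sh (C.pos z).1) := rfl
      have hfv : ∀ x, A.sh (C.pos z).1 = .fv x → g x = none := by
        intro x hx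
        cases hg : g x with
        | none => rfl
        | some i =>
          exfalso
          have h1 := h.term (by rw [hx]; rfl)
          rw [hx] at h1
          exact hE ⟨⟨(i, (C.pos z).2), hB x i hg _ h1⟩, x, hx, hg, rfl⟩
      have hcase : (∃ x, A.sh (C.pos z).1 = .fv x ∧ (plug A I B g).sh (pos none z).1 = .fv x ∧
          g x = none) ∨ ((plug A I B g).sh (pos none z).1 =
            (A.sh (C.pos z).1).map (inlP A I B g) ∧
          ∀ x, A.sh (C.pos z).1 ≠ .fv x) := by
        rw [hsh]
        cases hs : A.sh (C.pos z).1 with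
        | fv x =>
          left
          have := hfv x hs
          refine ⟨x, rfl, ?_, this⟩
          simp only [plugSh, this, Option.map_none]
        | lit p s => right; exact ⟨rfl, by simp⟩
        | cst c => right; exact ⟨rfl, by simp⟩
        | bin o a b => right; exact ⟨rfl, by simp⟩
        | mod o a => right; exact ⟨rfl, by simp⟩
      rcases hcase with ⟨x, h1, h2, h3⟩ | ⟨h1, h2⟩
      · refine ⟨?_, ?_, ?_⟩
        · intro _
          have h4 := h.term (by rw [h1]; rfl)
          rw [h1] at h4
          rw [h2]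
          simp only [Sh.tval] at h4 ⊢
          rw [← hρ x h3]
          exact h4
        · intro ho; rw [h2] at ho; simp [Sh.owner] at ho
        · intro ho; rw [h2] at ho; simp [Sh.owner] at ho
      · refine ⟨?_, ?_, ?_⟩
        · intro ho
          rw [h1, owner_map] at ho
          have h4 := h.term ho
          rw [h1, tval_map]
          have h5 : (A.sh (C.pos z).1).tval V ρ (C.pos z).2 ↔
              (A.sh (C.pos z).1).tval V ρ' (C.pos z).2 := by
            cases hs : A.sh (C.pos z).1 with
            | fv x => exact absurd hs (h2 x)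
            | lit p s => rfl
            | cst c => rfl
            | bin o a b => rfl
            | mod o a => rfl
          exact h5.trans h4
        · intro ho
          rw [h1, owner_map] at ho
          obtain ⟨d, z', h4, h5⟩ := h.own ho
          refine ⟨d, z', h4, ?_⟩
          rw [h1]
          have h6 := child_map (inlP A I B g) (A.sh (C.pos z).1) (C.pos z).1 (C.pos z).2 d
          rw [← h5] at h6
          exact h6.symm
        · intro ho d
          rw [h1, owner_map] at ho
          obtain ⟨z', h4, h5⟩ := h.opp ho d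
          refine ⟨z', h4, ?_⟩
          rw [h1]
          have h6 := child_map (inlP A I B g) (A.sh (C.pos z).1) (C.pos z).1 (C.pos z).2 d
          rw [← h5] at h6
          exact h6.symm
    · have h := (ct p).ok z
      have h1 : (plug A I B g).sh (pos (some p) z).1 =
          ((B p.1.1).sh ((ct p).pos z).1).map (inrP A I B g p.1.1) := rfl
      refine ⟨?_, ?_, ?_⟩
      · intro ho
        rw [h1, owner_map] at ho
        rw [h1, tval_map]
        exact h.term ho
      · intro ho
        rw [h1, owner_map] at ho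
        obtain ⟨d, z', h4, h5⟩ := h.own ho
        refine ⟨d, z', h4, ?_⟩
        rw [h1]
        have h6 := child_map (inrP A I B g p.1.1)
          ((B p.1.1).sh ((ct p).pos z).1) ((ct p).pos z).1 ((ct p).pos z).2 d
        rw [← h5] at h6
        exact h6.symm
      · intro ho d
        rw [h1, owner_map] at ho
        obtain ⟨z', h4, h5⟩ := h.opp ho d
        refine ⟨z', h4, ?_⟩
        rw [h1]
        have h6 := child_map (inrP A I B g p.1.1)
          ((B p.1.1).sh ((ct p).pos z).1) ((ct p).pos z).1 ((ct p).pos z).2 d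
        rw [← h5] at h6
        exact h6.symm
  · rintro (_ | p) z j hJ
    · by_cases hE : ∃ p, E z p
      · simp only [J] at hJ
        rw [dif_pos hE] at hJ
        simp only [Option.some.injEq] at hJ
        obtain ⟨x, h1, h2, h3⟩ := hE.choose_spec
        rw [hJ.symm]
        have hsh : (plug A I B g).sh (pos none z).1 = .bin true
            (inrP A I B g hE.choose.1.1 (B hE.choose.1.1).q0)
            (inrP A I B g hE.choose.1.1 (B hE.choose.1.1).q0) := by
          show plugSh (inlP A I B g) (fun x => (g x).map (fun i => inrP A I B g i (B i).q0))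
            (A.sh (C.pos z).1) = _
          rw [h1]
          simp only [plugSh, h2, Option.map_some]
        refine ⟨?_, ?_⟩
        · rw [hsh]; simp [Sh.owner]
        · intro d
          rw [hsh]
          show (inrP A I B g hE.choose.1.1 ((ct hE.choose).pos (st hE.choose)).1,
            ((ct hE.choose).pos (st hE.choose)).2) = _
          rw [hst]
          simp only [Sh.child, ite_self]
          rw [h3]
      · simp only [J] at hJ
        rw [dif_neg hE] at hJ
        simp at hJ
    · simp [J] at hJ
  · rintro (_ | p) f hf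
    · exact C.par f hf
    · exact (ct p).par f hf
  · intro f hf hinf
    exfalso
    have key : ∀ n, (J (f n).1 (f n).2) ≠ none → ∀ k, ∃ p z, f (n + 1 + k) = ⟨some p, z⟩ := by
      intro n hn k
      induction k with
      | zero =>
        rcases hf n with ⟨h1, _⟩ | ⟨j, h1, h2⟩
        · exact absurd h1 hn
        · cases hfn : f n with
          | mk o z =>
            rw [hfn] at h1
            cases o with
            | none =>
              by_cases hE : ∃ p, E z p
              · simp only [J] at h1
                rw [dif_pos hE] at h1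
                simp only [Option.some.injEq] at h1
                exact ⟨hE.choose, s (some hE.choose), by rw [add_zero, h2, ← h1]⟩
              · simp only [J] at h1
                rw [dif_neg hE] at h1
                simp at h1
            | some p => simp [J] at h1
      | succ k ih =>
        obtain ⟨p, z, hk⟩ := ih
        have h1 := hf (n + 1 + k)
        rw [hk] at h1
        rcases h1 with ⟨_, z', h2, _⟩ | ⟨j, h1, _⟩
        · exact ⟨p, z', h2⟩
        · simp [J] at h1
    obtain ⟨n, _, hn⟩ := hinf 0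
    obtain ⟨m, hm, hm'⟩ := hinf (n + 1)
    obtain ⟨p, z, hk⟩ := key n hn (m - (n + 1))
    rw [show n + 1 + (m - (n + 1)) = m by omega] at hk
    rw [hk] at hm'
    simp [J] at hm'

/-! ### Loops -/

/-- Redirecting the variable `x` to the initial state. -/
def loopSh {Q : Type} (x : ℕ) (q : Q) : Sh Q → Sh Q
  | .fv y => if y = x then .bin true q q else .fv y
  | .lit p s => .lit p s
  | .cst c => .cst c
  | .bin o a b => .bin o a b
  | .mod o a => .mod o a

open Classical in
/-- The automaton `A` with `x` redirected to the initial state, with priority `b`. -/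
noncomputable def loop (A : Aut) (x b : ℕ) : Aut where
  Q := A.Q
  q0 := A.q0
  sh := fun q => loopSh x A.q0 (A.sh q)
  pr := fun q => if A.sh q = .fv x then b else A.pr q

theorem loop_loc {A : Aut} {x b : ℕ} {V ρ : ℕ → Set Wd} {X : Set Wd} {P : Bool}
    (C : Cert A V (Function.update ρ x X) P) (N : C.Z → C.Z → Prop) (z : C.Z)
    (hz : A.sh (C.pos z).1 ≠ .fv x) (hN : ∀ z', C.N z z' → N z z') :
    LocOK (loop A x b) V ρ P (fun z => C.pos z) N z := by
  have h := C.ok z
  have hsh : (loop A x b).sh (C.pos z).1 = A.sh (C.pos z).1 := by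
    show loopSh x A.q0 (A.sh (C.pos z).1) = _
    cases hs : A.sh (C.pos z).1 with
    | fv y =>
      have : y ≠ x := fun e => hz (by rw [hs, e])
      simp [loopSh, this]
    | lit p s => rfl
    | cst c => rfl
    | bin o a b => rfl
    | mod o a => rfl
  refine ⟨?_, ?_, ?_⟩
  · intro ho
    simp only [hsh] at ho ⊢
    have h4 := h.term ho
    have h5 : (A.sh (C.pos z).1).tval V ρ (C.pos z).2 ↔
        (A.sh (C.pos z).1).tval V (Function.update ρ x X) (C.pos z).2 := by
      cases hs : A.sh (C.pos z).1 with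
      | fv y =>
        have : y ≠ x := fun e => hz (by rw [hs, e])
        simp [Sh.tval, this]
      | lit p s => rfl
      | cst c => rfl
      | bin o a b => rfl
      | mod o a => rfl
    exact h5.trans h4
  · intro ho
    simp only [hsh] at ho ⊢
    obtain ⟨d, z', h4, h5⟩ := h.own ho
    exact ⟨d, z', hN z' h4, h5⟩
  · intro ho d
    simp only [hsh] at ho ⊢
    obtain ⟨z', h4, h5⟩ := h.opp ho d
    exact ⟨z', hN z' h4, h5⟩

theorem loop_jump {A : Aut} {x b : ℕ} {q : A.Q} (hq : A.sh q = .fv x) :
    (loop A x b).sh q = .bin true A.q0 A.q0 := by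
  show loopSh x A.q0 (A.sh q) = _
  rw [hq]
  exact if_pos rfl

theorem loop_pr {A : Aut} {x b : ℕ} {q : A.Q} (hq : A.sh q ≠ .fv x) :
    (loop A x b).pr q = A.pr q := by
  exact if_neg hq

theorem loop_wins1 {A : Aut} {x b : ℕ} {V ρ : ℕ → Set Wd} {X : Set Wd} {P : Bool} {w : Wd}
    (hA : Wins A V (Function.update ρ x X) P w)
    (hX : ∀ v, (v ∈ X ↔ P = true) → Wins (loop A x b) V ρ P v) :
    Wins (loop A x b) V ρ P w := by
  classical
  obtain ⟨C, z0, hz0⟩ := hA
  let Pt : Type := {v : Wd // Wins (loop A x b) V ρ P v}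
  let ct : ∀ p : Pt, Cert (loop A x b) V ρ P := fun p => p.2.choose
  have hct : ∀ p : Pt, ∃ z, (ct p).pos z = ((loop A x b).q0, p.1) := fun p => p.2.choose_spec
  choose st hst using hct
  let Z : Option Pt → Type := fun o => match o with
    | none => C.Z
    | some p => (ct p).Z
  let pos : ∀ o, Z o → (loop A x b).Q × Wd := fun o => match o with
    | none => fun z => C.pos z
    | some p => fun z => (ct p).pos z
  let E : C.Z → Pt → Prop := fun z p => A.sh (C.pos z).1 = .fv x ∧ p.1 = (C.pos z).2
  let N : ∀ o, Z o → Z o → Prop := fun o => match o with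
    | none => fun z z' => C.N z z' ∧ A.sh (C.pos z).1 ≠ .fv x
    | some p => fun z z' => (ct p).N z z'
  let s : ∀ o, Z o := fun o => match o with
    | none => z0
    | some p => st p
  let J : ∀ o, Z o → Option (Option Pt) := fun o => match o with
    | none => fun z => if h : ∃ p, E z p then some (some h.choose) else none
    | some _ => fun _ => none
  have hfv : ∀ z, A.sh (C.pos z).1 = .fv x → ∃ p, E z p := by
    intro z hz
    have h1 := (C.ok z).term (by rw [hz]; rfl)
    rw [hz] at h1
    simp only [Sh.tval, Function.update_self] at h1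
    exact ⟨⟨(C.pos z).2, hX _ h1⟩, hz, rfl⟩
  have hglue := glue (loop A x b) V ρ P (Option Pt) Z pos N s J ?_ ?_ ?_ ?_ none
  · obtain ⟨D, z, hz⟩ := hglue
    refine ⟨D, z, ?_⟩
    rw [hz]
    exact hz0
  · rintro (_ | p) z hJ
    · have hE : ¬ ∃ p, E z p := by
        intro h
        simp only [J] at hJ
        rw [dif_pos h] at hJ
        simp at hJ
      have hz : A.sh (C.pos z).1 ≠ .fv x := fun h => hE (hfv z h)
      exact loop_loc C _ z hz (fun z' h => ⟨h, hz⟩)
    · exact (ct p).ok z
  · rintro (_ | p) z j hJ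
    · by_cases hE : ∃ p, E z p
      · simp only [J] at hJ
        rw [dif_pos hE] at hJ
        simp only [Option.some.injEq] at hJ
        obtain ⟨h1, h2⟩ := hE.choose_spec
        rw [hJ.symm]
        have hsh : (loop A x b).sh (pos none z).1 = .bin true A.q0 A.q0 := loop_jump h1
        refine ⟨?_, ?_⟩
        · rw [hsh]; simp [Sh.owner]
        · intro d
          rw [hsh]
          show (ct hE.choose).pos (st hE.choose) = _
          rw [hst, h2]
          cases d <;> rfl
      · simp only [J] at hJ
        rw [dif_neg hE] at hJ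
        simp at hJ
    · simp [J] at hJ
  · rintro (_ | p) f hf
    · have h1 := C.par f (fun n => (hf n).1)
      have e : (fun n => (loop A x b).pr (pos none (f n)).1) = fun n => A.pr (C.pos (f n)).1 := by
        funext n
        exact loop_pr (hf n).2
      rw [e]
      exact h1
    · exact (ct p).par f hf
  · intro f hf hinf
    exfalso
    have key : ∀ n, (J (f n).1 (f n).2) ≠ none → ∀ k, ∃ p z, f (n + 1 + k) = ⟨some p, z⟩ := by
      intro n hn k
      induction k with
      | zero =>
        rcases hf n with ⟨h1, _⟩ | ⟨j, h1, h2⟩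
        · exact absurd h1 hn
        · cases hfn : f n with
          | mk o z =>
            rw [hfn] at h1
            cases o with
            | none =>
              by_cases hE : ∃ p, E z p
              · simp only [J] at h1
                rw [dif_pos hE] at h1
                simp only [Option.some.injEq] at h1
                exact ⟨hE.choose, s (some hE.choose), by rw [add_zero, h2, ← h1]⟩
              · simp only [J] at h1
                rw [dif_neg hE] at h1
                simp at h1
            | some p => simp [J] at h1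
      | succ k ih =>
        obtain ⟨p, z, hk⟩ := ih
        have h1 := hf (n + 1 + k)
        rw [hk] at h1
        rcases h1 with ⟨_, z', h2, _⟩ | ⟨j, h1, _⟩
        · exact ⟨p, z', h2⟩
        · simp [J] at h1
    obtain ⟨n, _, hn⟩ := hinf 0
    obtain ⟨m, hm, hm'⟩ := hinf (n + 1)
    obtain ⟨p, z, hk⟩ := key n hn (m - (n + 1))
    rw [show n + 1 + (m - (n + 1)) = m by omega] at hk
    rw [hk] at hm'
    simp [J] at hm'

theorem loop_wins2 {A : Aut} {x b : ℕ} {V ρ : ℕ → Set Wd} {X : Set Wd} {P : Bool}
    (hA : ∀ v, (v ∈ X ↔ P = true) → Wins A V (Function.update ρ x X) P v)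
    (hb : b % 2 = 0 ↔ P = true) (hle : ∀ q, A.pr q ≤ b) :
    ∀ v, (v ∈ X ↔ P = true) → Wins (loop A x b) V ρ P v := by
  classical
  intro v0 hv0
  let Pt : Type := {v : Wd // (v ∈ X ↔ P = true)}
  let ct : ∀ p : Pt, Cert A V (Function.update ρ x X) P := fun p => (hA p.1 p.2).choose
  have hct : ∀ p : Pt, ∃ z, (ct p).pos z = (A.q0, p.1) := fun p => (hA p.1 p.2).choose_spec
  choose st hst using hct
  let Z : Pt → Type := fun p => (ct p).Z
  let pos : ∀ p, Z p → (loop A x b).Q × Wd := fun p z => (ct p).pos z
  let E : ∀ p, Z p → Pt → Prop := fun p z p' =>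
    A.sh ((ct p).pos z).1 = .fv x ∧ p'.1 = ((ct p).pos z).2
  let N : ∀ p, Z p → Z p → Prop := fun p z z' => (ct p).N z z' ∧ A.sh ((ct p).pos z).1 ≠ .fv x
  let J : ∀ p, Z p → Option Pt := fun p z => if h : ∃ p', E p z p' then some h.choose else none
  have hfv : ∀ p z, A.sh ((ct p).pos z).1 = .fv x → ∃ p', E p z p' := by
    intro p z hz
    have h1 := ((ct p).ok z).term (by rw [hz]; rfl)
    rw [hz] at h1
    simp only [Sh.tval, Function.update_self] at h1
    exact ⟨⟨((ct p).pos z).2, h1⟩, hz, rfl⟩
  have hJfv : ∀ p z, J p z ≠ none → A.sh ((ct p).pos z).1 = .fv x := by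
    intro p z h
    by_cases hE : ∃ p', E p z p'
    · exact hE.choose_spec.1
    · simp only [J] at h
      rw [dif_neg hE] at h
      exact absurd rfl h
  have hprle : ∀ q, (loop A x b).pr q ≤ b := by
    intro q
    show (if A.sh q = .fv x then b else A.pr q) ≤ b
    split
    · exact le_refl _
    · exact hle q
  have hglue := glue (loop A x b) V ρ P Pt Z pos N st J ?_ ?_ ?_ ?_ ⟨v0, hv0⟩
  · obtain ⟨D, z, hz⟩ := hglue
    refine ⟨D, z, ?_⟩
    rw [hz]
    exact hst _
  · intro p z hJ
    have hz : A.sh ((ct p).pos z).1 ≠ .fv x := by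
      intro h
      have hE := hfv p z h
      simp only [J] at hJ
      rw [dif_pos hE] at hJ
      simp at hJ
    exact loop_loc (ct p) _ z hz (fun z' h => ⟨h, hz⟩)
  · intro p z j hJ
    by_cases hE : ∃ p', E p z p'
    · simp only [J] at hJ
      rw [dif_pos hE] at hJ
      simp only [Option.some.injEq] at hJ
      obtain ⟨h1, h2⟩ := hE.choose_spec
      rw [hJ.symm]
      have hsh : (loop A x b).sh (pos p z).1 = .bin true A.q0 A.q0 := loop_jump h1
      refine ⟨?_, ?_⟩
      · rw [hsh]; simp [Sh.owner]
      · intro d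
        rw [hsh]
        show (ct hE.choose).pos (st hE.choose) = _
        rw [hst, h2]
        cases d <;> rfl
    · simp only [J] at hJ
      rw [dif_neg hE] at hJ
      simp at hJ
  · intro p f hf
    have h1 := (ct p).par f (fun n => (hf n).1)
    have e : (fun n => (loop A x b).pr (pos p (f n)).1) =
        fun n => A.pr ((ct p).pos (f n)).1 := by
      funext n
      exact loop_pr (hf n).2
    rw [e]
    exact h1
  · intro f hf hinf
    refine ⟨b, hb, ⟨0, fun n _ => hprle _⟩, ?_⟩
    intro n0
    obtain ⟨n, hn, h1⟩ := hinf n0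
    refine ⟨n, hn, ?_⟩
    show (if A.sh _ = .fv x then b else A.pr _) = b
    rw [if_pos (hJfv _ _ h1)]

/-! ### Representable formulas -/

/-- The formula `φ` is represented, on the binary tree, by an automaton with priorities
between `lo` and `hi`. -/
def Rep (lo hi : ℕ) (φ : Mu) : Prop :=
  ∃ A : Aut, (∀ q, lo ≤ A.pr q ∧ A.pr q ≤ hi) ∧ ∀ (V ρ : ℕ → Set Wd) (P : Bool) (w : Wd),
    (w ∈ sat TR V φ ρ ↔ P = true) → Wins A V ρ P w

theorem Rep.mono {lo lo' hi hi' : ℕ} {φ : Mu} (h : Rep lo hi φ) (hlo : lo' ≤ lo)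
    (hhi : hi ≤ hi') : Rep lo' hi' φ := by
  obtain ⟨A, h1, h2⟩ := h
  exact ⟨A, fun q => ⟨hlo.trans (h1 q).1, (h1 q).2.trans hhi⟩, h2⟩

/-- The automaton with a single terminal state. -/
def single (s : Sh Unit) (lo : ℕ) : Aut := ⟨Unit, (), fun _ => s, fun _ => lo⟩

theorem single_wins {s : Sh Unit} {lo : ℕ} {V ρ : ℕ → Set Wd} {P : Bool} {w : Wd}
    (hs : s.owner = none) (h : s.tval V ρ w ↔ P = true) : Wins (single s lo) V ρ P w := by
  refine ⟨⟨Unit, fun _ => ((), w), fun _ _ => False, ?_, ?_⟩, (), rfl⟩
  · intro z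
    refine ⟨fun _ => h, ?_, ?_⟩
    · intro ho
      have : s.owner = some P := ho
      rw [hs] at this
      simp at this
    · intro ho
      have : s.owner = some (!P) := ho
      rw [hs] at this
      simp at this
  · intro f hf
    exact (hf 0).elim

theorem rep_single {lo hi : ℕ} (hlh : lo ≤ hi) {φ : Mu} (s : Sh Unit) (hs : s.owner = none)
    (h : ∀ (V ρ : ℕ → Set Wd) (w : Wd), w ∈ sat TR V φ ρ ↔ s.tval V ρ w) : Rep lo hi φ := by
  refine ⟨single s lo, fun _ => ⟨le_refl _, hlh⟩, ?_⟩
  intro V ρ P w hw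
  refine single_wins hs ?_
  rw [← h]
  exact hw

/-- The base automaton for a connective. -/
def baseA (s : Sh (Option Bool)) (lo : ℕ) : Aut where
  Q := Option Bool
  q0 := none
  sh := fun q => match q with
    | none => s
    | some b => .fv (if b then 1 else 0)
  pr := fun _ => lo

theorem base_wins {s : Sh (Option Bool)} {lo : ℕ} {V ρ : ℕ → Set Wd} {P : Bool} {w : Wd}
    {o : Bool} (hs : s.owner = some o) (c : Bool → Bool) (v : Bool → Wd)
    (hc : ∀ d, s.child none w d = (some (c d), v d))
    (h1 : o = P → ∃ d, (v d ∈ ρ (if c d then 1 else 0) ↔ P = true))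
    (h2 : o ≠ P → ∀ d, (v d ∈ ρ (if c d then 1 else 0) ↔ P = true)) :
    Wins (baseA s lo) V ρ P w := by
  let Pt : Type := {d : Bool // v d ∈ ρ (if c d then 1 else 0) ↔ P = true}
  let pos : Option Pt → Option Bool × Wd := fun z => match z with
    | none => (none, w)
    | some d => (some (c d.1), v d.1)
  let N : Option Pt → Option Pt → Prop := fun z z' => z = none ∧ z' ≠ none
  refine ⟨⟨Option Pt, pos, N, ?_, ?_⟩, none, rfl⟩
  · rintro (_ | d)
    · refine ⟨?_, ?_, ?_⟩
      · intro ho
        have ho1 : s.owner = none := ho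
        rw [hs] at ho1
        simp at ho1
      · intro ho
        have ho1 : s.owner = some P := ho
        rw [hs] at ho1
        simp only [Option.some.injEq] at ho1
        obtain ⟨d, hd⟩ := h1 ho1
        exact ⟨d, some ⟨d, hd⟩, ⟨rfl, by simp⟩, (hc d).symm⟩
      · intro ho d
        have ho1 : s.owner = some (!P) := ho
        rw [hs] at ho1
        simp only [Option.some.injEq] at ho1
        have ho' : o ≠ P := by rw [ho1]; cases P <;> simp
        exact ⟨some ⟨d, h2 ho' d⟩, ⟨rfl, by simp⟩, (hc d).symm⟩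
    · refine ⟨?_, ?_, ?_⟩
      · intro _
        exact d.2
      · intro ho
        have ho1 : (Sh.fv (if c d.1 then 1 else 0) : Sh (Option Bool)).owner = some P := ho
        simp [Sh.owner] at ho1
      · intro ho
        have ho1 : (Sh.fv (if c d.1 then 1 else 0) : Sh (Option Bool)).owner = some (!P) := ho
        simp [Sh.owner] at ho1
  · intro f hf
    exact absurd (hf 1).1 (hf 0).2

/-- The variables of the base automaton. -/
def cg : ℕ → Option Bool := fun x => if x = 0 then some false else
  if x = 1 then some true else none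

/-- Combining one or two automata by a connective. -/
theorem conn_wins {s : Sh (Option Bool)} {lo : ℕ} {A : Bool → Aut} {S : Bool → Set Wd}
    {V ρ : ℕ → Set Wd} {P : Bool} {w : Wd}
    (hA : ∀ b v, (v ∈ S b ↔ P = true) → Wins (A b) V ρ P v)
    {o : Bool} (hs : s.owner = some o) (c : Bool → Bool) (v : Bool → Wd)
    (hc : ∀ d, s.child none w d = (some (c d), v d))
    (h1 : o = P → ∃ d, (v d ∈ S (c d) ↔ P = true))
    (h2 : o ≠ P → ∀ d, (v d ∈ S (c d) ↔ P = true)) :
    Wins (plug (baseA s lo) Bool A cg) V ρ P w := by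
  let ρ' : ℕ → Set Wd := fun x => if x = 0 then S false else if x = 1 then S true else ρ x
  have e : ∀ b : Bool, ρ' (if b then 1 else 0) = S b := by
    intro b
    cases b <;> simp [ρ']
  refine plug_wins (ρ' := ρ') ?_ ?_ ?_
  · refine base_wins hs c v hc ?_ ?_
    · intro h
      obtain ⟨d, hd⟩ := h1 h
      exact ⟨d, by rw [e]; exact hd⟩
    · intro h d
      rw [e]
      exact h2 h d
  · intro x hx
    by_cases h0 : x = 0
    · simp [cg, h0] at hx
    · by_cases h1 : x = 1
      · simp [cg, h1] at hx
      · simp [ρ', h0, h1]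
  · intro x i hx v hv
    by_cases h0 : x = 0
    · simp only [cg, h0, if_true, Option.some.injEq] at hx
      subst hx
      subst h0
      exact hA false v hv
    · by_cases h1 : x = 1
      · simp only [cg, h1, one_ne_zero, if_false, if_true, Option.some.injEq] at hx
        subst hx
        subst h1
        exact hA true v hv
      · simp [cg, h0, h1] at hx

theorem conn_pr {s : Sh (Option Bool)} {lo hi : ℕ} (hlh : lo ≤ hi) {A : Bool → Aut}
    {g : ℕ → Option Bool} (hA : ∀ b q, lo ≤ (A b).pr q ∧ (A b).pr q ≤ hi) :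
    ∀ q, lo ≤ (plug (baseA s lo) Bool A g).pr q ∧ (plug (baseA s lo) Bool A g).pr q ≤ hi := by
  rintro (q | ⟨b, q⟩)
  · exact ⟨le_refl _, hlh⟩
  · exact hA b q

theorem rep_and {lo hi : ℕ} (hlh : lo ≤ hi) {φ ψ : Mu} (h : Rep lo hi φ) (h' : Rep lo hi ψ) :
    Rep lo hi (.and φ ψ) := by
  obtain ⟨A, ha, ha'⟩ := h
  obtain ⟨B, hb, hb'⟩ := h'
  refine ⟨_, conn_pr (s := .bin false (some false) (some true)) (g := cg) hlh
    (A := fun b => if b then B else A) ?_, ?_⟩
  · intro b q; cases b
    · exact ha q
    · exact hb q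
  · intro V ρ P w hw
    refine conn_wins (S := fun b => if b then sat TR V ψ ρ else sat TR V φ ρ) ?_ rfl
      (fun d => d) (fun _ => w) ?_ ?_ ?_
    · intro b v hv
      cases b
      · exact ha' V ρ P v hv
      · exact hb' V ρ P v hv
    · intro d; cases d <;> rfl
    · intro hP
      subst hP
      simp only [Bool.false_eq_true, iff_false, sat, Set.mem_inter_iff, not_and_or] at hw ⊢
      rcases hw with hw | hw
      · exact ⟨false, hw⟩
      · exact ⟨true, hw⟩
    · intro hP d
      have hP' : P = true := by cases P <;> simp at hP ⊢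
      subst hP'
      simp only [iff_true, sat] at hw ⊢
      cases d
      · exact hw.1
      · exact hw.2

theorem rep_or {lo hi : ℕ} (hlh : lo ≤ hi) {φ ψ : Mu} (h : Rep lo hi φ) (h' : Rep lo hi ψ) :
    Rep lo hi (.or φ ψ) := by
  obtain ⟨A, ha, ha'⟩ := h
  obtain ⟨B, hb, hb'⟩ := h'
  refine ⟨_, conn_pr (s := .bin true (some false) (some true)) (g := cg) hlh
    (A := fun b => if b then B else A) ?_, ?_⟩
  · intro b q; cases b
    · exact ha q
    · exact hb q
  · intro V ρ P w hw
    refine conn_wins (S := fun b => if b then sat TR V ψ ρ else sat TR V φ ρ) ?_ rfl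
      (fun d => d) (fun _ => w) ?_ ?_ ?_
    · intro b v hv
      cases b
      · exact ha' V ρ P v hv
      · exact hb' V ρ P v hv
    · intro d; cases d <;> rfl
    · intro hP
      subst hP
      simp only [iff_true, sat, Set.mem_union] at hw ⊢
      rcases hw with hw | hw
      · exact ⟨false, hw⟩
      · exact ⟨true, hw⟩
    · intro hP d
      have hP' : P = false := by cases P <;> simp at hP ⊢
      subst hP'
      simp only [Bool.false_eq_true, iff_false, sat, Set.mem_union, not_or] at hw ⊢
      cases d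
      · exact hw.1
      · exact hw.2

theorem rep_dia {lo hi : ℕ} (hlh : lo ≤ hi) {φ : Mu} (h : Rep lo hi φ) :
    Rep lo hi (.dia φ) := by
  obtain ⟨A, ha, ha'⟩ := h
  refine ⟨_, conn_pr (s := .mod true (some false)) (g := cg) hlh (A := fun _ => A)
    (fun _ q => ha q), ?_⟩
  intro V ρ P w hw
  refine conn_wins (S := fun _ => sat TR V φ ρ) (fun _ v hv => ha' V ρ P v hv) rfl
    (fun _ => false) (fun d => d :: w) (fun d => rfl) ?_ ?_
  · intro hP
    subst hP
    simp only [iff_true, sat] at hw ⊢
    obtain ⟨v, ⟨d, rfl⟩, hv⟩ := hw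
    exact ⟨d, hv⟩
  · intro hP d
    have hP' : P = false := by cases P <;> simp at hP ⊢
    subst hP'
    simp only [Bool.false_eq_true, iff_false, sat] at hw ⊢
    intro hd
    exact hw ⟨_, ⟨d, rfl⟩, hd⟩

theorem rep_box {lo hi : ℕ} (hlh : lo ≤ hi) {φ : Mu} (h : Rep lo hi φ) :
    Rep lo hi (.box φ) := by
  obtain ⟨A, ha, ha'⟩ := h
  refine ⟨_, conn_pr (s := .mod false (some false)) (g := cg) hlh (A := fun _ => A)
    (fun _ q => ha q), ?_⟩
  intro V ρ P w hw
  refine conn_wins (S := fun _ => sat TR V φ ρ) (fun _ v hv => ha' V ρ P v hv) rfl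
    (fun _ => false) (fun d => d :: w) (fun d => rfl) ?_ ?_
  · intro hP
    subst hP
    simp only [Bool.false_eq_true, iff_false, sat, Set.mem_ofPred_eq] at hw ⊢
    push Not at hw
    obtain ⟨v, ⟨d, rfl⟩, hv⟩ := hw
    exact ⟨d, hv⟩
  · intro hP d
    have hP' : P = true := by cases P <;> simp at hP ⊢
    subst hP'
    simp only [iff_true, sat] at hw ⊢
    exact hw _ ⟨d, rfl⟩

theorem loop_range {A : Aut} {lo hi x b : ℕ} (hlo : lo ≤ b) (hhi : b ≤ hi)
    (hA : ∀ q, lo ≤ A.pr q ∧ A.pr q ≤ hi) :
    ∀ q, lo ≤ (loop A x b).pr q ∧ (loop A x b).pr q ≤ hi := by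
  classical
  intro q
  show lo ≤ (if A.sh q = .fv x then b else A.pr q) ∧
    (if A.sh q = .fv x then b else A.pr q) ≤ hi
  split
  · exact ⟨hlo, hhi⟩
  · exact hA q

theorem rep_mu {lo hi : ℕ} (hlh : lo ≤ hi) (hodd : hi % 2 = 1) {φ : Mu} (x : ℕ)
    (h : Rep lo hi φ) : Rep lo hi (.mu x φ) := by
  obtain ⟨A, ha, ha'⟩ := h
  refine ⟨loop A x hi, loop_range hlh (le_refl _) ha, ?_⟩
  intro V ρ P w hw
  cases P with
  | true =>
    have hw' : w ∈ sat TR V (.mu x φ) ρ := hw.2 rfl
    refine hw' {v | Wins (loop A x hi) V ρ true v} ?_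
    intro v hv
    exact loop_wins1 (ha' V _ true v (by simpa using hv)) (fun u hu => by simpa using hu)
  | false =>
    refine loop_wins2 (X := sat TR V (.mu x φ) ρ) ?_ ?_ (fun q => (ha q).2) w hw
    · intro v hv
      refine ha' V _ false v ?_
      simp only [Bool.false_eq_true, iff_false] at hv ⊢
      exact fun h => hv (mu_prefix x φ ρ h)
    · simp only [Bool.false_eq_true, iff_false]
      omega

theorem rep_nu {lo hi : ℕ} (hlh : lo ≤ hi) (heven : hi % 2 = 0) {φ : Mu} (x : ℕ)
    (h : Rep lo hi φ) : Rep lo hi (.nu x φ) := by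
  obtain ⟨A, ha, ha'⟩ := h
  refine ⟨loop A x hi, loop_range hlh (le_refl _) ha, ?_⟩
  intro V ρ P w hw
  cases P with
  | false =>
    by_contra hcon
    refine (show ¬ (w ∈ sat TR V (.nu x φ) ρ) by simpa using hw) ?_
    refine ⟨{v | ¬ Wins (loop A x hi) V ρ false v}, ?_, hcon⟩
    intro v hv
    by_contra hv'
    refine hv (loop_wins1 (X := {v | ¬ Wins (loop A x hi) V ρ false v})
      (ha' V _ false v ?_) (fun u hu => ?_))
    · simpa using hv'
    · simpa using hu
  | true =>
    refine loop_wins2 (X := sat TR V (.nu x φ) ρ) ?_ ?_ (fun q => (ha q).2) w hw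
    · intro v hv
      refine ha' V _ true v ?_
      simp only [iff_true] at hv ⊢
      exact nu_postfix x φ ρ hv
    · simp only [iff_true]
      omega

theorem rep_sub {lo hi : ℕ} {φ χ : Mu} (x : ℕ) (h : Rep lo hi φ) (h' : Rep lo hi χ)
    (hc : NoCapture x χ φ) : Rep lo hi (subst x χ φ) := by
  obtain ⟨A, ha, ha'⟩ := h
  obtain ⟨B, hb, hb'⟩ := h'
  refine ⟨plug A Unit (fun _ => B) (fun y => if y = x then some () else none), ?_, ?_⟩
  · rintro (q | ⟨b, q⟩)
    · exact ha q
    · exact hb q
  · intro V ρ P w hw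
    rw [sat_subst x χ φ ρ hc] at hw
    refine plug_wins (ha' V _ P w hw) ?_ ?_
    · intro y hy
      by_cases hyx : y = x
      · simp [hyx] at hy
      · simp [hyx]
    · intro y i hy v hv
      by_cases hyx : y = x
      · subst hyx
        simp only [Function.update_self] at hv
        exact hb' V ρ P v hv
      · simp [hyx] at hy

theorem rep_fixFree {lo hi : ℕ} (hlh : lo ≤ hi) (φ : Mu) (h : FixFree φ) : Rep lo hi φ := by
  induction φ with
  | top => exact rep_single hlh (.cst true) rfl (fun V ρ w => by simp [sat, Sh.tval])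
  | bot => exact rep_single hlh (.cst false) rfl (fun V ρ w => by simp [sat, Sh.tval])
  | lit p s => exact rep_single hlh (.lit p s) rfl (fun V ρ w => by simp [sat, Sh.tval])
  | var x => exact rep_single hlh (.fv x) rfl (fun V ρ w => by simp [sat, Sh.tval])
  | and φ ψ ih ih' => exact rep_and hlh (ih h.1) (ih' h.2)
  | or φ ψ ih ih' => exact rep_or hlh (ih h.1) (ih' h.2)
  | dia φ ih => exact rep_dia hlh (ih h)
  | box φ ih => exact rep_box hlh (ih h)
  | mu x φ ih => exact h.elim
  | nu x φ ih => exact h.elim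

/-- Formulas of level `n` are represented by automata with `n` priorities. -/
theorem rep_level {b : Bool} {n : ℕ} {φ : Mu} (h : Level b n φ) : ∀ lo hi, lo ≤ hi →
    (n = 0 ∨ ((hi % 2 = 1 ↔ b = true) ∧ lo + n ≤ hi + 1)) → Rep lo hi φ := by
  induction h with
  | base h => intro lo hi hlh _; exact rep_fixFree hlh _ h
  | @up b b' n φ h ih =>
    intro lo hi hlh hc
    rcases hc with hc | ⟨h1, h2⟩
    · omega
    · rcases Nat.eq_zero_or_pos n with hn | hn
      · exact ih lo hi hlh (Or.inl hn)
      · by_cases hbb : b' = b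
        · subst hbb
          exact ih lo hi hlh (Or.inr ⟨h1, by omega⟩)
        · refine (ih lo (hi - 1) (by omega) (Or.inr ⟨?_, by omega⟩)).mono (le_refl _)
            (by omega)
          have hb : b' = !b := by cases b <;> cases b' <;> simp at hbb ⊢
          subst hb
          cases b
          · simp only [Bool.false_eq_true, iff_false, Bool.not_false, iff_true] at h1 ⊢
            omega
          · simp only [iff_true, Bool.not_true, Bool.false_eq_true, iff_false] at h1 ⊢
            omega
  | and _ _ ih ih' => intro lo hi hlh hc; exact rep_and hlh (ih lo hi hlh hc) (ih' lo hi hlh hc)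
  | or _ _ ih ih' => intro lo hi hlh hc; exact rep_or hlh (ih lo hi hlh hc) (ih' lo hi hlh hc)
  | dia _ ih => intro lo hi hlh hc; exact rep_dia hlh (ih lo hi hlh hc)
  | box _ ih => intro lo hi hlh hc; exact rep_box hlh (ih lo hi hlh hc)
  | mu x _ ih =>
    intro lo hi hlh hc
    refine rep_mu hlh ?_ x (ih lo hi hlh hc)
    rcases hc with hc | ⟨h1, _⟩
    · omega
    · simpa using h1
  | nu x _ ih =>
    intro lo hi hlh hc
    refine rep_nu hlh ?_ x (ih lo hi hlh hc)
    rcases hc with hc | ⟨h1, _⟩
    · omega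
    · simp only [Bool.false_eq_true, iff_false] at h1
      omega
  | sub x _ _ _ hcap ih ih' =>
    intro lo hi hlh hc
    exact rep_sub x (ih lo hi hlh hc) (ih' lo hi hlh hc) hcap

end Pool.Agent.R599.MC
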