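import Pool.Agent.R599.MC.Diag

/-!
# Path formulas
-/

namespace Pool.Agent.R599.MC

/-- Some path through `s` and `l` meets `h` infinitely often. -/
def innerG (s l h : Mu) : Mu :=
  .nu 1 (.mu 2 (.and s (.and l (.or (.and h (.dia (.var 1))) (.dia (.var 2))))))

/-- Some path through `s` is eventually in `l` and meets `h` infinitely often. -/
def pathG (s l h : Mu) : Mu := .mu 0 (.and s (.or (.dia (.var 0)) (innerG s l h)))

/-- The set `s` is closed under a strategy of the player choosing at `e1`. -/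
def clo (e1 e2 s : Mu) : Mu :=
  .nu 0 (.and s (.or (.and e1 (.dia (.var 0))) (.and e2 (.box (.var 0)))))

section

variable {W : Type} {R : W → W → Prop} {V : ℕ → Set W} {s l h : Mu} {S L H : Set W}

theorem innerG_iff (hs : ∀ ρ, sat R V s ρ = S) (hl : ∀ ρ, sat R V l ρ = L)
    (hh : ∀ ρ, sat R V h ρ = H) (ρ : ℕ → Set W) (w : W) :
    w ∈ sat R V (innerG s l h) ρ ↔ ∃ π : ℕ → W, π 0 = w ∧ (∀ n, R (π n) (π (n + 1))) ∧
      (∀ n, π n ∈ S ∧ π n ∈ L) ∧ ∀ m, ∃ n ≥ m, π n ∈ H := by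
  constructor
  · intro hw
    set M := sat R V (innerG s l h) ρ with hM
    let D : ℕ → Set W := fun n => Nat.rec {v | v ∈ S ∧ v ∈ L ∧ v ∈ H ∧ ∃ u, R v u ∧ u ∈ M}
      (fun _ D => {v | v ∈ S ∧ v ∈ L ∧ ∃ u, R v u ∧ u ∈ D}) n
    have hD0 : D 0 = {v | v ∈ S ∧ v ∈ L ∧ v ∈ H ∧ ∃ u, R v u ∧ u ∈ M} := rfl
    have hDs : ∀ n, D (n + 1) = {v | v ∈ S ∧ v ∈ L ∧ ∃ u, R v u ∧ u ∈ D n} := fun _ => rfl
    have hMD : ∀ v ∈ M, ∃ n, v ∈ D n := by
      intro v hv
      have h1 : v ∈ sat R V (.mu 2 (.and s (.and l (.or (.and h (.dia (.var 1)))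
        (.dia (.var 2)))))) (Function.update ρ 1 M) := nu_postfix _ _ _ hv
      refine h1 {v | ∃ n, v ∈ D n} ?_
      rintro u ⟨h2, h3, h4⟩
      rw [hs] at h2
      rw [hl] at h3
      rcases h4 with ⟨h4, u', h5, h6⟩ | ⟨u', h5, h6⟩
      · rw [hh] at h4
        have h7 : u' ∈ M := by simpa [sat] using h6
        exact ⟨0, h2, h3, h4, u', h5, h7⟩
      · have h7 : ∃ n, u' ∈ D n := by simpa [sat] using h6
        obtain ⟨n, hn⟩ := h7
        exact ⟨n + 1, h2, h3, u', h5, hn⟩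
    let St : Type := {p : W × ℕ // p.1 ∈ D p.2}
    have hnx : ∀ p : St, ∃ p' : St, R p.1.1 p'.1.1 ∧ (p.1.2 = 0 ∨ p'.1.2 + 1 = p.1.2) := by
      rintro ⟨⟨v, n⟩, hp⟩
      cases n with
      | zero =>
        obtain ⟨_, _, _, u, h1, h2⟩ := hp
        obtain ⟨m, hm⟩ := hMD u h2
        exact ⟨⟨(u, m), hm⟩, h1, Or.inl rfl⟩
      | succ n =>
        obtain ⟨_, _, u, h1, h2⟩ := hp
        exact ⟨⟨(u, n), h2⟩, h1, Or.inr rfl⟩
    choose nx hnx1 hnx2 using hnx
    obtain ⟨n0, hn0⟩ := hMD w hw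
    let f : ℕ → St := fun n => Nat.rec ⟨(w, n0), hn0⟩ (fun _ p => nx p) n
    have hfs : ∀ n, f (n + 1) = nx (f n) := fun _ => rfl
    refine ⟨fun n => (f n).1.1, rfl, ?_, ?_, ?_⟩
    · intro n
      show R (f n).1.1 (f (n + 1)).1.1
      rw [hfs]
      exact hnx1 (f n)
    · intro n
      show (f n).1.1 ∈ S ∧ (f n).1.1 ∈ L
      have h1 := (f n).2
      generalize (f n).1 = p at h1 ⊢
      obtain ⟨v, k⟩ := p
      cases k with
      | zero => exact ⟨h1.1, h1.2.1⟩
      | succ k => exact ⟨h1.1, h1.2.1⟩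
    · intro m
      have key : ∀ k m, (f m).1.2 = k → ∃ n ≥ m, (f n).1.2 = 0 := by
        intro k
        induction k with
        | zero => intro m hm; exact ⟨m, le_refl _, hm⟩
        | succ k ih =>
          intro m hm
          have h1 := hnx2 (f m)
          rw [← hfs, hm] at h1
          rcases h1 with h1 | h1
          · omega
          · obtain ⟨n, hn, h2⟩ := ih (m + 1) (by omega)
            exact ⟨n, by omega, h2⟩
      obtain ⟨n, hn, h1⟩ := key _ m rfl
      refine ⟨n, hn, ?_⟩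
      have h2 := (f n).2
      rw [h1] at h2
      exact h2.2.2.1
  · rintro ⟨π, h0, h1, h2, h3⟩
    refine ⟨{v | ∃ n, v = π n}, ?_, ⟨0, h0.symm⟩⟩
    rintro v ⟨n, rfl⟩ X hX
    have key : ∀ k n, π (n + k) ∈ H → π n ∈ X := by
      intro k
      induction k with
      | zero =>
        intro n hn
        refine hX ⟨?_, ?_, Or.inl ⟨?_, π (n + 1), h1 n, ?_⟩⟩
        · rw [hs]; exact (h2 n).1
        · rw [hl]; exact (h2 n).2
        · rw [hh]; exact hn
        · simp only [sat]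
          rw [Function.update_of_ne (by decide), Function.update_self]
          exact ⟨n + 1, rfl⟩
      | succ k ih =>
        intro n hn
        refine hX ⟨?_, ?_, Or.inr ⟨π (n + 1), h1 n, ?_⟩⟩
        · rw [hs]; exact (h2 n).1
        · rw [hl]; exact (h2 n).2
        · simp only [sat, Function.update_self]
          exact ih (n + 1) (by rw [show n + 1 + k = n + (k + 1) by omega]; exact hn)
    obtain ⟨m, hm, hm'⟩ := h3 n
    exact key (m - n) n (by rw [show n + (m - n) = m by omega]; exact hm')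

theorem pathG_iff (hs : ∀ ρ, sat R V s ρ = S) (hl : ∀ ρ, sat R V l ρ = L)
    (hh : ∀ ρ, sat R V h ρ = H) (ρ : ℕ → Set W) (w : W) :
    w ∈ sat R V (pathG s l h) ρ ↔ ∃ π : ℕ → W, π 0 = w ∧ (∀ n, R (π n) (π (n + 1))) ∧
      (∀ n, π n ∈ S) ∧ (∃ m, ∀ n ≥ m, π n ∈ L) ∧ ∀ m, ∃ n ≥ m, π n ∈ H := by
  constructor
  · intro hw
    refine hw {w | ∃ π : ℕ → W, π 0 = w ∧ (∀ n, R (π n) (π (n + 1))) ∧
      (∀ n, π n ∈ S) ∧ (∃ m, ∀ n ≥ m, π n ∈ L) ∧ ∀ m, ∃ n ≥ m, π n ∈ H} ?_
    rintro v ⟨h1, h2⟩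
    rw [hs] at h1
    rcases h2 with ⟨u, h3, h4⟩ | h2
    · have h5 : u ∈ {w | ∃ π : ℕ → W, π 0 = w ∧ (∀ n, R (π n) (π (n + 1))) ∧
        (∀ n, π n ∈ S) ∧ (∃ m, ∀ n ≥ m, π n ∈ L) ∧ ∀ m, ∃ n ≥ m, π n ∈ H} := by
        simpa only [sat, Function.update_self] using h4
      obtain ⟨π, g0, g1, g2, ⟨m, g3⟩, g4⟩ := h5
      refine ⟨fun n => match n with | 0 => v | n + 1 => π n, rfl, ?_, ?_, ⟨m + 1, ?_⟩, ?_⟩
      · intro n
        cases n with
        | zero => show R v (π 0); rw [g0]; exact h3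
        | succ n => exact g1 n
      · intro n
        cases n with
        | zero => exact h1
        | succ n => exact g2 n
      · intro n hn
        cases n with
        | zero => omega
        | succ n => exact g3 n (by omega)
      · intro k
        obtain ⟨n, hn, hn'⟩ := g4 k
        exact ⟨n + 1, by omega, hn'⟩
    · rw [innerG_iff hs hl hh] at h2
      obtain ⟨π, g0, g1, g2, g3⟩ := h2
      exact ⟨π, g0, g1, fun n => (g2 n).1, ⟨0, fun n _ => (g2 n).2⟩, g3⟩
  · rintro ⟨π, g0, g1, g2, ⟨m, g3⟩, g4⟩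
    have key : ∀ k n, n + k = m → π n ∈ sat R V (pathG s l h) ρ := by
      intro k
      induction k with
      | zero =>
        intro n hn
        refine mu_prefix _ _ _ ⟨?_, Or.inr ?_⟩
        · rw [hs]; exact g2 n
        · rw [innerG_iff hs hl hh]
          refine ⟨fun i => π (n + i), rfl, fun i => g1 (n + i), fun i => ⟨g2 _, g3 _ (by omega)⟩,
            ?_⟩
          intro i
          obtain ⟨j, hj, hj'⟩ := g4 (n + i)
          refine ⟨j - n, by omega, ?_⟩
          show π (n + (j - n)) ∈ H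
          rw [show n + (j - n) = j by omega]
          exact hj'
      | succ k ih =>
        intro n hn
        refine mu_prefix _ _ _ ⟨?_, Or.inl ⟨π (n + 1), g1 n, ?_⟩⟩
        · rw [hs]; exact g2 n
        · simp only [sat, Function.update_self]
          exact ih (n + 1) (by omega)
    rw [← g0]
    exact key m 0 (by omega)

end

end Pool.Agent.R599.MC
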