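import Mathlib

/-!
# The modal mu-calculus: syntax, semantics and the alternation hierarchy
-/

namespace Pool.Agent.R599.MC

/-- Formulas of the modal mu-calculus in negation normal form. `lit p true` is the letter
`p`, `lit p false` its negation, `var x` a fixpoint variable. -/
inductive Mu
  | top
  | bot
  | lit (p : ℕ) (s : Bool)
  | var (x : ℕ)
  | and (φ ψ : Mu)
  | or (φ ψ : Mu)
  | dia (φ : Mu)
  | box (φ : Mu)
  | mu (x : ℕ) (φ : Mu)
  | nu (x : ℕ) (φ : Mu)

/-- The set of points of the Kripke model `(W, R, V)` at which a formula is true, under an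
assignment `ρ` of sets to the fixpoint variables. -/
def sat {W : Type} (R : W → W → Prop) (V : ℕ → Set W) : Mu → (ℕ → Set W) → Set W
  | .top, _ => Set.univ
  | .bot, _ => ∅
  | .lit p s, _ => {w | w ∈ V p ↔ s = true}
  | .var x, ρ => ρ x
  | .and φ ψ, ρ => sat R V φ ρ ∩ sat R V ψ ρ
  | .or φ ψ, ρ => sat R V φ ρ ∪ sat R V ψ ρ
  | .dia φ, ρ => {w | ∃ v, R w v ∧ v ∈ sat R V φ ρ}
  | .box φ, ρ => {w | ∀ v, R w v → v ∈ sat R V φ ρ}
  | .mu x φ, ρ => {w | ∀ X : Set W, sat R V φ (Function.update ρ x X) ⊆ X → w ∈ X}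
  | .nu x φ, ρ => {w | ∃ X : Set W, X ⊆ sat R V φ (Function.update ρ x X) ∧ w ∈ X}

/-- The implication from `φ` to `ψ` is valid. -/
def ValidImp (φ ψ : Mu) : Prop :=
  ∀ (W : Type) (R : W → W → Prop) (V ρ : ℕ → Set W) (w : W),
    w ∈ sat R V φ ρ → w ∈ sat R V ψ ρ

/-- The propositional letters of a formula. -/
def Mu.letters : Mu → Set ℕ
  | .top => ∅
  | .bot => ∅
  | .lit p _ => {p}
  | .var _ => ∅
  | .and φ ψ => φ.letters ∪ ψ.letters
  | .or φ ψ => φ.letters ∪ ψ.letters
  | .dia φ => φ.letters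
  | .box φ => φ.letters
  | .mu _ φ => φ.letters
  | .nu _ φ => φ.letters

/-- The fixpoint variable `x` occurs free in the formula. -/
def Free (x : ℕ) : Mu → Prop
  | .top => False
  | .bot => False
  | .lit _ _ => False
  | .var y => y = x
  | .and φ ψ => Free x φ ∨ Free x ψ
  | .or φ ψ => Free x φ ∨ Free x ψ
  | .dia φ => Free x φ
  | .box φ => Free x φ
  | .mu y φ => y ≠ x ∧ Free x φ
  | .nu y φ => y ≠ x ∧ Free x φ

/-- The result of replacing the free occurrences of `x` by `χ`. -/
def subst (x : ℕ) (χ : Mu) : Mu → Mu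
  | .top => .top
  | .bot => .bot
  | .lit p s => .lit p s
  | .var y => if y = x then χ else .var y
  | .and φ ψ => .and (subst x χ φ) (subst x χ ψ)
  | .or φ ψ => .or (subst x χ φ) (subst x χ ψ)
  | .dia φ => .dia (subst x χ φ)
  | .box φ => .box (subst x χ φ)
  | .mu y φ => if y = x then .mu y φ else .mu y (subst x χ φ)
  | .nu y φ => if y = x then .nu y φ else .nu y (subst x χ φ)

/-- No free variable of `χ` is captured when `χ` is substituted for the free occurrences
of `x`. -/
def NoCapture (x : ℕ) (χ : Mu) : Mu → Prop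
  | .top => True
  | .bot => True
  | .lit _ _ => True
  | .var _ => True
  | .and φ ψ => NoCapture x χ φ ∧ NoCapture x χ ψ
  | .or φ ψ => NoCapture x χ φ ∧ NoCapture x χ ψ
  | .dia φ => NoCapture x χ φ
  | .box φ => NoCapture x χ φ
  | .mu y φ => y = x ∨ ((Free x φ → ¬ Free y χ) ∧ NoCapture x χ φ)
  | .nu y φ => y = x ∨ ((Free x φ → ¬ Free y χ) ∧ NoCapture x χ φ)

/-- Formulas without fixpoint operators. -/
def FixFree : Mu → Prop
  | .top => True
  | .bot => True
  | .lit _ _ => True
  | .var _ => True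
  | .and φ ψ => FixFree φ ∧ FixFree ψ
  | .or φ ψ => FixFree φ ∧ FixFree ψ
  | .dia φ => FixFree φ
  | .box φ => FixFree φ
  | .mu _ _ => False
  | .nu _ _ => False

/-- The alternation hierarchy: `Level true n` is the class Sigma-n and `Level false n` the
class Pi-n. -/
inductive Level : Bool → ℕ → Mu → Prop
  | base {b : Bool} {φ : Mu} (h : FixFree φ) : Level b 0 φ
  | up {b b' : Bool} {n : ℕ} {φ : Mu} (h : Level b' n φ) : Level b (n + 1) φ
  | and {b : Bool} {n : ℕ} {φ ψ : Mu} (h : Level b (n + 1) φ) (h' : Level b (n + 1) ψ) :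
      Level b (n + 1) (.and φ ψ)
  | or {b : Bool} {n : ℕ} {φ ψ : Mu} (h : Level b (n + 1) φ) (h' : Level b (n + 1) ψ) :
      Level b (n + 1) (.or φ ψ)
  | dia {b : Bool} {n : ℕ} {φ : Mu} (h : Level b (n + 1) φ) : Level b (n + 1) (.dia φ)
  | box {b : Bool} {n : ℕ} {φ : Mu} (h : Level b (n + 1) φ) : Level b (n + 1) (.box φ)
  | mu {n : ℕ} {φ : Mu} (x : ℕ) (h : Level true (n + 1) φ) :
      Level true (n + 1) (.mu x φ)
  | nu {n : ℕ} {φ : Mu} (x : ℕ) (h : Level false (n + 1) φ) :
      Level false (n + 1) (.nu x φ)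
  | sub {b : Bool} {n : ℕ} {φ χ : Mu} (x : ℕ) (h : Level b (n + 1) φ)
      (h' : Level b (n + 1) χ) (hx : Free x φ) (hc : NoCapture x χ φ) :
      Level b (n + 1) (subst x χ φ)

/-- A set of formulas has Craig interpolation. -/
def Craig (F : Mu → Prop) : Prop :=
  ∀ φ ψ, F φ → F ψ → ValidImp φ ψ →
    ∃ χ, F χ ∧ χ.letters ⊆ φ.letters ∩ ψ.letters ∧ ValidImp φ χ ∧ ValidImp χ ψ

/-! ### Basic lemmas -/

section
variable {W : Type} {R : W → W → Prop}

theorem sat_mono {V : ℕ → Set W} (φ : Mu) : ∀ {ρ ρ' : ℕ → Set W}, (∀ x, ρ x ⊆ ρ' x) →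
    sat R V φ ρ ⊆ sat R V φ ρ' := by
  have upd : ∀ {ρ ρ' : ℕ → Set W} (x : ℕ) (X : Set W), (∀ x, ρ x ⊆ ρ' x) →
      ∀ y, Function.update ρ x X y ⊆ Function.update ρ' x X y := by
    intro ρ ρ' x X h y
    by_cases hy : y = x
    · subst hy; simp
    · simpa [hy] using h y
  induction φ with
  | top => intro ρ ρ' h; exact subset_refl _
  | bot => intro ρ ρ' h; exact subset_refl _
  | lit p s => intro ρ ρ' h; exact subset_refl _
  | var x => intro ρ ρ' h; exact h x
  | and φ ψ ih ih' => intro ρ ρ' h; exact Set.inter_subset_inter (ih h) (ih' h)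
  | or φ ψ ih ih' => intro ρ ρ' h; exact Set.union_subset_union (ih h) (ih' h)
  | dia φ ih =>
    rintro ρ ρ' h w ⟨v, hv, h1⟩
    exact ⟨v, hv, ih h h1⟩
  | box φ ih =>
    intro ρ ρ' h w hw v hv
    exact ih h (hw v hv)
  | mu x φ ih =>
    intro ρ ρ' h w hw X hX
    exact hw X ((ih (upd x X h)).trans hX)
  | nu x φ ih =>
    rintro ρ ρ' h w ⟨X, hX, h1⟩
    exact ⟨X, hX.trans (ih (upd x X h)), h1⟩

theorem sat_congr {V V' : ℕ → Set W} (φ : Mu) : ∀ {ρ ρ' : ℕ → Set W},
    (∀ p ∈ φ.letters, V p = V' p) → (∀ x, Free x φ → ρ x = ρ' x) →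
    sat R V φ ρ = sat R V' φ ρ' := by
  induction φ with
  | top => intro ρ ρ' h h'; rfl
  | bot => intro ρ ρ' h h'; rfl
  | lit p s => intro ρ ρ' h h'; simp only [sat, h p rfl]
  | var x => intro ρ ρ' h h'; exact h' x rfl
  | and φ ψ ih ih' =>
    intro ρ ρ' h h'
    simp only [sat]
    rw [ih (fun p hp => h p (Or.inl hp)) (fun x hx => h' x (Or.inl hx)),
      ih' (fun p hp => h p (Or.inr hp)) (fun x hx => h' x (Or.inr hx))]
  | or φ ψ ih ih' =>
    intro ρ ρ' h h'
    simp only [sat]
    rw [ih (fun p hp => h p (Or.inl hp)) (fun x hx => h' x (Or.inl hx)),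
      ih' (fun p hp => h p (Or.inr hp)) (fun x hx => h' x (Or.inr hx))]
  | dia φ ih => intro ρ ρ' h h'; simp only [sat]; rw [ih h h']
  | box φ ih => intro ρ ρ' h h'; simp only [sat]; rw [ih h h']
  | mu x φ ih =>
    intro ρ ρ' h h'
    have key : ∀ X : Set W, sat R V φ (Function.update ρ x X) =
        sat R V' φ (Function.update ρ' x X) := by
      intro X
      refine ih h ?_
      intro y hy
      by_cases hyx : y = x
      · subst hyx; simp
      · simpa [hyx] using h' y ⟨fun e => hyx e.symm, hy⟩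
    simp only [sat, key]
  | nu x φ ih =>
    intro ρ ρ' h h'
    have key : ∀ X : Set W, sat R V φ (Function.update ρ x X) =
        sat R V' φ (Function.update ρ' x X) := by
      intro X
      refine ih h ?_
      intro y hy
      by_cases hyx : y = x
      · subst hyx; simp
      · simpa [hyx] using h' y ⟨fun e => hyx e.symm, hy⟩
    simp only [sat, key]

theorem sat_subst {V : ℕ → Set W} (x : ℕ) (χ : Mu) (φ : Mu) : ∀ (ρ : ℕ → Set W),
    NoCapture x χ φ →
    sat R V (subst x χ φ) ρ = sat R V φ (Function.update ρ x (sat R V χ ρ)) := by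
  induction φ with
  | top => intro ρ h; rfl
  | bot => intro ρ h; rfl
  | lit p s => intro ρ h; rfl
  | var y =>
    intro ρ h
    by_cases hy : y = x
    · subst hy; simp [subst, sat]
    · simp [subst, sat, hy]
  | and φ ψ ih ih' => intro ρ h; simp only [subst, sat]; rw [ih ρ h.1, ih' ρ h.2]
  | or φ ψ ih ih' => intro ρ h; simp only [subst, sat]; rw [ih ρ h.1, ih' ρ h.2]
  | dia φ ih => intro ρ h; simp only [subst, sat]; rw [ih ρ h]
  | box φ ih => intro ρ h; simp only [subst, sat]; rw [ih ρ h]
  | mu y φ ih =>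
    intro ρ h
    by_cases hy : y = x
    · subst hy; simp [subst, sat]
    · rcases h with h | ⟨h1, h2⟩
      · exact absurd h hy
      · have key : ∀ X : Set W, sat R V (subst x χ φ) (Function.update ρ y X) =
            sat R V φ (Function.update (Function.update ρ x (sat R V χ ρ)) y X) := by
          intro X
          rw [ih _ h2]
          refine sat_congr φ (fun _ _ => rfl) ?_
          intro z hz
          by_cases hzx : z = x
          · subst hzx
            have e : sat R V χ (Function.update ρ y X) = sat R V χ ρ := by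
              refine sat_congr χ (fun _ _ => rfl) ?_
              intro v hv
              have hvy : v ≠ y := fun e => h1 hz (e ▸ hv)
              simp [hvy]
            have hzy : z ≠ y := fun e => hy e.symm
            simp [e, hzy]
          · by_cases hzy : z = y
            · subst hzy; simp [hzx]
            · simp [hzx, hzy]
        simp only [subst, hy, if_false, sat, key]
  | nu y φ ih =>
    intro ρ h
    by_cases hy : y = x
    · subst hy; simp [subst, sat]
    · rcases h with h | ⟨h1, h2⟩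
      · exact absurd h hy
      · have key : ∀ X : Set W, sat R V (subst x χ φ) (Function.update ρ y X) =
            sat R V φ (Function.update (Function.update ρ x (sat R V χ ρ)) y X) := by
          intro X
          rw [ih _ h2]
          refine sat_congr φ (fun _ _ => rfl) ?_
          intro z hz
          by_cases hzx : z = x
          · subst hzx
            have e : sat R V χ (Function.update ρ y X) = sat R V χ ρ := by
              refine sat_congr χ (fun _ _ => rfl) ?_
              intro v hv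
              have hvy : v ≠ y := fun e => h1 hz (e ▸ hv)
              simp [hvy]
            have hzy : z ≠ y := fun e => hy e.symm
            simp [e, hzy]
          · by_cases hzy : z = y
            · subst hzy; simp [hzx]
            · simp [hzx, hzy]
        simp only [subst, hy, if_false, sat, key]

theorem mu_prefix {V : ℕ → Set W} (x : ℕ) (φ : Mu) (ρ : ℕ → Set W) :
    sat R V φ (Function.update ρ x (sat R V (.mu x φ) ρ)) ⊆ sat R V (.mu x φ) ρ := by
  intro w hw X hX
  refine hX (sat_mono φ ?_ hw)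
  intro y
  by_cases hy : y = x
  · subst hy
    simp only [Function.update_self]
    intro v hv
    exact hv X hX
  · simp [hy]

theorem nu_postfix {V : ℕ → Set W} (x : ℕ) (φ : Mu) (ρ : ℕ → Set W) :
    sat R V (.nu x φ) ρ ⊆ sat R V φ (Function.update ρ x (sat R V (.nu x φ) ρ)) := by
  rintro w ⟨X, hX, hw⟩
  refine sat_mono φ ?_ (hX hw)
  intro y
  by_cases hy : y = x
  · subst hy
    simp only [Function.update_self]
    intro v hv
    exact ⟨X, hX, hv⟩
  · simp [hy]

end

/-- Negation, pushed to the letters. -/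
def neg : Mu → Mu
  | .top => .bot
  | .bot => .top
  | .lit p s => .lit p (!s)
  | .var x => .var x
  | .and φ ψ => .or (neg φ) (neg ψ)
  | .or φ ψ => .and (neg φ) (neg ψ)
  | .dia φ => .box (neg φ)
  | .box φ => .dia (neg φ)
  | .mu x φ => .nu x (neg φ)
  | .nu x φ => .mu x (neg φ)

theorem sat_neg {W : Type} {R : W → W → Prop} {V : ℕ → Set W} (φ : Mu) :
    ∀ ρ : ℕ → Set W, sat R V (neg φ) ρ = (sat R V φ (fun x => (ρ x)ᶜ))ᶜ := by
  have upd : ∀ (ρ : ℕ → Set W) (x : ℕ) (X : Set W),
      (fun y => (Function.update ρ x X y)ᶜ) = Function.update (fun y => (ρ y)ᶜ) x Xᶜ := by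
    intro ρ x X
    funext y
    by_cases hy : y = x
    · subst hy; simp
    · simp [hy]
  induction φ with
  | top => intro ρ; simp [neg, sat]
  | bot => intro ρ; simp [neg, sat]
  | lit p s => intro ρ; ext w; cases s <;> simp [neg, sat]
  | var x => intro ρ; simp [neg, sat]
  | and φ ψ ih ih' => intro ρ; simp only [neg, sat, ih, ih']; rw [Set.compl_inter]
  | or φ ψ ih ih' => intro ρ; simp only [neg, sat, ih, ih']; rw [Set.compl_union]
  | dia φ ih =>
    intro ρ
    ext w
    simp only [neg, sat, ih, Set.mem_ofPred_eq, Set.mem_compl_iff]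
    push Not
    rfl
  | box φ ih =>
    intro ρ
    ext w
    simp only [neg, sat, ih, Set.mem_ofPred_eq, Set.mem_compl_iff]
    push Not
    rfl
  | mu x φ ih =>
    intro ρ
    ext w
    simp only [neg, sat, ih, upd, Set.mem_ofPred_eq, Set.mem_compl_iff]
    constructor
    · rintro ⟨X, h1, h2⟩ h3
      exact h3 Xᶜ (Set.subset_compl_comm.1 h1) h2
    · intro h
      push Not at h
      obtain ⟨X, h1, h2⟩ := h
      refine ⟨Xᶜ, ?_, h2⟩
      rw [compl_compl]
      exact Set.compl_subset_compl.2 h1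
  | nu x φ ih =>
    intro ρ
    ext w
    simp only [neg, sat, ih, upd, Set.mem_ofPred_eq, Set.mem_compl_iff]
    constructor
    · rintro h ⟨X, h1, h2⟩
      refine h Xᶜ ?_ h2
      rw [compl_compl]
      exact Set.compl_subset_compl.2 h1
    · intro h X h1
      by_contra h2
      refine h ⟨Xᶜ, ?_, h2⟩
      rw [Set.compl_subset_comm]
      exact h1

end Pool.Agent.R599.MC
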